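import Pool.Agent.Q4.Frat.Low

/-!
# Frattini pairs do not compute the global dimension of the subgroup incidence algebra

There is a finite group `G` such that, over the incidence algebra `IA G` over `ℚ` of the poset of
all subgroups of `G`, every extension group `Ext^n(S_H, S_{Φ H})` with `n ≥ 4` is zero, but the
global dimension of `IA G` is at least `4`.
-/

namespace Pool.Agent.Results.MP_70614a_al.FrattiniPairsNotEnough

open Q4.Frat

theorem result : ∃ (G : Type) (_ : Group G) (_ : Finite G),
    (∀ (n : ℕ) (H : Subgroup G), ExtNonzero n H (Phi H) → n ≤ 3) ∧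
      ((4 : ℕ) : WithBot ℕ∞) ≤ gldim (ModuleCat.{0} (IA G)) :=
  ⟨GG, inferInstance, inferInstance, upper, gldim_ge⟩

end Pool.Agent.Results.MP_70614a_al.FrattiniPairsNotEnough
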